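import Mathlib

/-!
# Polynomial Freiman-Ruzsa for lattice points of convex sets of arbitrary dimension

Statements of the tasks.
-/

set_option autoImplicit false
open Finset
open scoped Pointwise

namespace H947CV

/-- an integer vector as a real vector -/
def re {n : ℕ} (x : Fin n → ℤ) : Fin n → ℝ := fun i => (x i : ℝ)

def St_RANK : Prop := ∀ (n : ℕ) (A : Finset (Fin n → ℤ)) (K : ℝ), A.Nonempty →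
  ((A + A).card : ℝ) ≤ K * A.card →
  ∃ (d : ℕ) (ψ : (Fin d → ℤ) →+ (Fin n → ℤ)) (t : Fin n → ℤ) (A1 : Finset (Fin d → ℤ)),
    (d : ℝ) ≤ 480 * Real.log K + 1 ∧ Function.Injective ψ ∧
    (∀ y, y ∈ A1 ↔ t + ψ y ∈ A) ∧ (A.card : ℝ) ≤ K ^ 185 * A1.card

def St_MID : Prop := ∀ (d : ℕ) (B : Set (Fin d → ℝ)) (S : Finset (Fin d → ℤ)), Convex ℝ B →
  (∀ y, y ∈ S ↔ re y ∈ B) → S.Nonempty →
  ∃ y0 ∈ S, ∃ V : Finset (Fin d → ℤ), (∀ v, v ∈ V ↔ (y0 + v ∈ S ∧ y0 - v ∈ S)) ∧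
    S.card ≤ 4 ^ d * V.card

def St_COVC : Prop := ∀ (d : ℕ) (C : Set (Fin d → ℝ)) (V : Finset (Fin d → ℤ)), Convex ℝ C →
  (∀ x ∈ C, -x ∈ C) → (∀ y, y ∈ V ↔ re y ∈ C) → V.Nonempty →
  ∃ Y : Finset (Fin d → ℤ), Y.card ≤ 24 ^ d ∧ ∀ a ∈ V, ∀ b ∈ V, ∃ y ∈ Y, a - b - y ∈ V

def St_BODY : Prop := ∀ (d : ℕ) (C : Set (Fin d → ℝ)) (V : Finset (Fin d → ℤ)), Convex ℝ C →
  (∀ x ∈ C, -x ∈ C) → (∀ y, y ∈ V ↔ re y ∈ C) → V.Nonempty →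
  ∃ B : Set (Fin d → ℝ), Convex ℝ B ∧ IsCompact B ∧ (interior B).Nonempty ∧ (∀ x ∈ B, -x ∈ B) ∧
    ∀ y, re y ∈ B ↔ y ∈ V

end H947CV
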