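import Mathlib
import Pool.Agent.H947R2.CV.Stubs

set_option autoImplicit false
open Finset
open scoped Pointwise

namespace H947CV

theorem finite_int_of_norm_le (d : ℕ) (R : ℝ) : {y : Fin d → ℤ | ‖re y‖ ≤ R}.Finite := by
  apply (Set.finite_Icc (fun _ => -⌈R⌉ : Fin d → ℤ) (fun _ => ⌈R⌉)).subset
  intro y hy
  rw [Set.mem_ofPred_eq] at hy
  rw [Set.mem_Icc]
  have h : ∀ i, |(y i : ℝ)| ≤ R := by
    intro i
    have := norm_le_pi_norm (re y) i
    rw [Real.norm_eq_abs] at this
    exact this.trans hy
  constructor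
  · intro i
    have h1 := (abs_le.1 (h i)).1
    have h2 : (-(⌈R⌉ : ℝ)) ≤ y i := by
      have := Int.le_ceil R
      linarith
    exact_mod_cast h2
  · intro i
    have h1 := (abs_le.1 (h i)).2
    have h2 : (y i : ℝ) ≤ ⌈R⌉ := h1.trans (Int.le_ceil R)
    exact_mod_cast h2

theorem BODY_proof' : St_BODY := by
  intro d C V hC hs hV hne
  classical
  set H : Set (Fin d → ℝ) := convexHull ℝ (re '' (V : Set (Fin d → ℤ))) with hH
  have hHC : H ⊆ C := by
    apply convexHull_min _ hC
    rintro _ ⟨y, hy, rfl⟩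
    exact (hV y).1 (Finset.mem_coe.mp hy)
  have hVH : ∀ y ∈ V, re y ∈ H := fun y hy => subset_convexHull ℝ _ ⟨y, Finset.mem_coe.mpr hy, rfl⟩
  have hHk : IsCompact H := ((Finset.finite_toSet V).image re).isCompact_convexHull ℝ
  have hHc : Convex ℝ H := convex_convexHull ℝ _
  have hHne : H.Nonempty := by
    obtain ⟨y, hy⟩ := hne
    exact ⟨_, hVH y hy⟩
  have hHs : ∀ x ∈ H, -x ∈ H := by
    intro x hx
    have h1 : -x ∈ -H := Set.neg_mem_neg.mpr hx
    rw [hH, ← convexHull_neg] at h1
    refine convexHull_mono ?_ h1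
    intro z hz
    rw [Set.mem_neg] at hz
    obtain ⟨y, hy, hyz⟩ := hz
    refine ⟨-y, ?_, ?_⟩
    · rw [Finset.mem_coe, hV]
      have e : re (-y) = -re y := by ext i; simp [re]
      rw [e]
      exact hs _ ((hV y).1 (Finset.mem_coe.mp hy))
    · have e : re (-y) = -re y := by ext i; simp [re]
      rw [e, hyz, neg_neg]
  -- the exceptional lattice points near H
  obtain ⟨R, hR⟩ := (hHk.cthickening (r := 1)).isBounded.exists_norm_le
  have hfin : {y : Fin d → ℤ | re y ∈ Metric.cthickening 1 H ∧ y ∉ V}.Finite := by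
    apply (finite_int_of_norm_le d R).subset
    rintro y ⟨hy, _⟩
    exact hR _ hy
  set F := hfin.toFinset with hF
  have hFmem : ∀ y, y ∈ F ↔ re y ∈ Metric.cthickening 1 H ∧ y ∉ V := by
    intro y; rw [hF, Set.Finite.mem_toFinset]; rfl
  have hpos : ∀ y, y ∉ V → 0 < Metric.infDist (re y) H := by
    intro y hy
    rw [← hHk.isClosed.notMem_iff_infDist_pos hHne]
    intro h
    exact hy ((hV y).2 (hHC h))
  -- choose ε
  obtain ⟨ε, hε0, hε1, hεF⟩ : ∃ ε : ℝ, 0 < ε ∧ ε ≤ 1 ∧ ∀ y ∈ F, ε < Metric.infDist (re y) H := by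
    rcases F.eq_empty_or_nonempty with h | h
    · exact ⟨1, one_pos, le_rfl, by rw [h]; intro y hy; exact absurd hy (Finset.notMem_empty y)⟩
    · obtain ⟨y0, hy0, hmin⟩ := Finset.exists_min_image F (fun y => Metric.infDist (re y) H) h
      have h0 := hpos y0 ((hFmem y0).1 hy0).2
      refine ⟨min 1 (Metric.infDist (re y0) H / 2), by positivity, min_le_left _ _, ?_⟩
      intro y hy
      have h1 := hmin y hy
      have h2 : min 1 (Metric.infDist (re y0) H / 2) ≤ Metric.infDist (re y0) H / 2 :=
        min_le_right _ _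
      linarith
  refine ⟨Metric.cthickening ε H, hHc.cthickening ε, hHk.cthickening, ?_, ?_, ?_⟩
  · obtain ⟨x, hx⟩ := hHne
    refine ⟨x, ?_⟩
    rw [mem_interior]
    exact ⟨Metric.thickening ε H, Metric.thickening_subset_cthickening ε H,
      Metric.isOpen_thickening, Metric.self_subset_thickening hε0 H hx⟩
  · intro x hx
    rw [Metric.mem_cthickening_iff] at hx ⊢
    refine le_trans (le_of_eq ?_) hx
    have hneg : -H = H := by
      ext z
      rw [Set.mem_neg]
      constructor
      · intro h; have := hHs _ h; rwa [neg_neg] at this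
      · intro h; exact hHs _ h
    conv_lhs => rw [← hneg]
    have := Metric.infEDist_image (x := x) (t := H) (Φ := fun z : Fin d → ℝ => -z)
      (fun a b => by rw [edist_neg_neg])
    rw [Set.image_neg_eq_neg] at this
    exact this
  · intro y
    constructor
    · intro h
      by_contra hy
      have h1 : y ∈ F := (hFmem y).2 ⟨Metric.cthickening_mono hε1 H h, hy⟩
      have h2 := hεF y h1
      have h3 : Metric.infDist (re y) H ≤ ε := by
        rw [Metric.mem_cthickening_iff] at h
        exact ENNReal.toReal_le_of_le_ofReal hε0.le h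
      linarith
    · intro h
      exact Metric.self_subset_cthickening H (hVH y h)

end H947CV
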