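import Mathlib
import Pool.Agent.H947R2.CV.Stubs

/-!
# Polynomial Freiman-Ruzsa for dense subsets of convex progressions of arbitrary dimension

Covering by a shrunk symmetric convex set (replaces `St_COVC`).
-/

set_option autoImplicit false
open Finset
open scoped Pointwise

namespace H947CV

/-- Cover the lattice points of `4C` by `72^d max(1,|V|/N)` translates of the lattice points of a
shrunk copy of `C` that has at most `N` lattice points. -/
def St_SHR : Prop := ∀ (d : ℕ) (C : Set (Fin d → ℝ)) (V : Finset (Fin d → ℤ)) (N : ℕ),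
  Convex ℝ C → (∀ x ∈ C, -x ∈ C) → (∀ y, y ∈ V ↔ re y ∈ C) → V.Nonempty → 1 ≤ N →
  ∃ (C' : Set (Fin d → ℝ)) (V' Y : Finset (Fin d → ℤ)), Convex ℝ C' ∧ (∀ x ∈ C', -x ∈ C') ∧
    (∀ y, y ∈ V' ↔ re y ∈ C') ∧ V'.Nonempty ∧ V'.card ≤ N ∧
    Y.card * N ≤ 72 ^ d * max V.card N ∧
    ∀ z : Fin d → ℤ, (∃ c ∈ C, re z = (4 : ℝ) • c) → ∃ y ∈ Y, z - y ∈ V'

end H947CV
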