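import Mathlib
import Pool.Agent.H947R2.CV.Stubs
import Pool.Agent.H947R2.CV.Stubs2

set_option autoImplicit false
open Finset
open scoped Pointwise

namespace H947CV

theorem re_add {n : ℕ} (x y : Fin n → ℤ) : re (x + y) = re x + re y := by
  ext i; simp [re]

theorem re_sub {n : ℕ} (x y : Fin n → ℤ) : re (x - y) = re x - re y := by
  ext i; simp [re]

theorem re_neg {n : ℕ} (x : Fin n → ℤ) : re (-x) = -re x := by
  ext i; simp [re]

/-- the real-linear extension of `ψ` -/
noncomputable def lin {d n : ℕ} (ψ : (Fin d → ℤ) →+ (Fin n → ℤ)) :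
    (Fin d → ℝ) →ₗ[ℝ] (Fin n → ℝ) :=
  Fintype.linearCombination ℝ (fun j => re (ψ (Pi.single j 1)))

theorem lin_re {d n : ℕ} (ψ : (Fin d → ℤ) →+ (Fin n → ℤ)) (z : Fin d → ℤ) :
    lin ψ (re z) = re (ψ z) := by
  have h : ψ z = ∑ j, z j • ψ (Pi.single j 1) := by
    conv_lhs => rw [← Finset.univ_sum_single z]
    rw [map_sum]
    refine Finset.sum_congr rfl fun j _ => ?_
    rw [← map_zsmul]
    congr 1
    rw [← Pi.single_smul]
    simp
  rw [h]
  ext i
  simp [lin, re, Fintype.linearCombination_apply, Finset.sum_apply]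

theorem zero_mem_of_symm {d : ℕ} {C : Set (Fin d → ℝ)} (hC : Convex ℝ C)
    (hs : ∀ x ∈ C, -x ∈ C) (hne : C.Nonempty) : (0 : Fin d → ℝ) ∈ C := by
  obtain ⟨x, hx⟩ := hne
  have := hC hx (hs x hx) (by norm_num : (0 : ℝ) ≤ 1 / 2) (by norm_num : (0 : ℝ) ≤ 1 / 2)
    (by norm_num)
  simpa using this

theorem half_sub {d : ℕ} {C : Set (Fin d → ℝ)} (hC : Convex ℝ C)
    (hs : ∀ x ∈ C, -x ∈ C) {x y : Fin d → ℝ} (hx : x ∈ C) (hy : y ∈ C) :
    (1 / 2 : ℝ) • (x - y) ∈ C := by
  have := hC hx (hs y hy) (by norm_num : (0 : ℝ) ≤ 1 / 2) (by norm_num : (0 : ℝ) ≤ 1 / 2)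
    (by norm_num)
  have h : (1 / 2 : ℝ) • (x - y) = (1 / 2 : ℝ) • x + (1 / 2 : ℝ) • -y := by
    rw [← smul_add, sub_eq_add_neg]
  rw [h]; exact this

theorem half_add {d : ℕ} {C : Set (Fin d → ℝ)} (hC : Convex ℝ C)
    {x y : Fin d → ℝ} (hx : x ∈ C) (hy : y ∈ C) :
    (1 / 2 : ℝ) • (x + y) ∈ C := by
  have := hC hx hy (by norm_num : (0 : ℝ) ≤ 1 / 2) (by norm_num : (0 : ℝ) ≤ 1 / 2)
    (by norm_num)
  rw [smul_add]; exact this

/-- The symmetric body and the covering of `P1`. -/
theorem structure_lemma (hMID : St_MID) {n d : ℕ} (B : Set (Fin n → ℝ)) (hB : Convex ℝ B)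
    (P : Finset (Fin n → ℤ)) (hP : ∀ x, x ∈ P ↔ re x ∈ B)
    (ψ : (Fin d → ℤ) →+ (Fin n → ℤ)) (hψ : Function.Injective ψ) (t : Fin n → ℤ)
    (P1 : Finset (Fin d → ℤ)) (hP1 : ∀ y, y ∈ P1 ↔ t + ψ y ∈ P) (hne : P1.Nonempty)
    (N G : ℝ) (hG : 1 ≤ G)
    (h : ((∀ x ∈ B, -x ∈ B) ∧ (P.card : ℝ) ≤ N) ∨ ((P - P).card : ℝ) ≤ N)
    (hNG : N ≤ G * P1.card) :
    ∃ (C : Set (Fin d → ℝ)) (V X2 : Finset (Fin d → ℤ)), Convex ℝ C ∧ (∀ x ∈ C, -x ∈ C) ∧
      (∀ y, y ∈ V ↔ re y ∈ C) ∧ V.Nonempty ∧ (V.card : ℝ) ≤ N ∧ (X2.card : ℝ) ≤ G * 4 ^ d ∧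
      ∀ a ∈ P1, ∀ b ∈ P1, ∃ x ∈ X2, ∃ x' ∈ X2, ∃ c ∈ C, re (a - b - x + x') = (4 : ℝ) • c := by
  classical
  rcases h with ⟨hsym, hPN⟩ | hPN
  · -- symmetric case
    obtain ⟨y0, hy0⟩ := hne
    have hBne : B.Nonempty := ⟨_, (hP _).1 ((hP1 _).1 hy0)⟩
    have h0 : (0 : Fin n → ℝ) ∈ B := zero_mem_of_symm hB hsym hBne
    refine ⟨lin ψ ⁻¹' B, P.preimage ψ hψ.injOn, {0}, hB.linear_preimage (lin ψ), ?_, ?_, ?_, ?_,
      ?_, ?_⟩
    · intro x hx
      rw [Set.mem_preimage] at hx ⊢
      rw [map_neg]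
      exact hsym _ hx
    · intro y
      rw [Finset.mem_preimage, Set.mem_preimage, lin_re, hP]
    · refine ⟨0, ?_⟩
      rw [Finset.mem_preimage, map_zero, hP]
      have : re (0 : Fin n → ℤ) = 0 := by ext i; simp [re]
      rw [this]; exact h0
    · refine le_trans ?_ hPN
      exact_mod_cast Finset.card_le_card_of_injOn ψ (fun y hy => by
        have := Finset.mem_coe.mp hy
        rw [Finset.mem_preimage] at this
        exact Finset.mem_coe.mpr this) hψ.injOn
    · rw [Finset.card_singleton]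
      have : (1 : ℝ) ≤ 4 ^ d := one_le_pow₀ (by norm_num)
      push_cast
      nlinarith
    · intro a ha b hb
      refine ⟨0, Finset.mem_singleton_self _, 0, Finset.mem_singleton_self _,
        (1 / 4 : ℝ) • re (a - b), ?_, ?_⟩
      · rw [Set.mem_preimage, map_smul, lin_re]
        have e1 : re (ψ (a - b)) = re (t + ψ a) - re (t + ψ b) := by
          rw [← re_sub, map_sub]; congr 1; abel
        rw [e1]
        have h1 := half_sub hB hsym ((hP _).1 ((hP1 _).1 ha)) ((hP _).1 ((hP1 _).1 hb))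
        have h2 := half_add hB h1 h0
        rw [add_zero, smul_smul] at h2
        norm_num at h2 ⊢
        exact h2
      · rw [sub_zero, add_zero, smul_smul]; norm_num
  · -- general case
    obtain ⟨p, hp⟩ := hne
    set Bd : Set (Fin d → ℝ) := {x | re t + lin ψ x ∈ B} with hBd
    have hBdc : Convex ℝ Bd := by
      intro x hx y hy a b ha hb hab
      have := hB hx hy ha hb hab
      rw [hBd, Set.mem_ofPred_eq]
      have e : re t + lin ψ (a • x + b • y) =
          a • (re t + lin ψ x) + b • (re t + lin ψ y) := by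
        rw [map_add, map_smul, map_smul, smul_add, smul_add]
        have : re t = (a + b) • re t := by rw [hab, one_smul]
        conv_lhs => rw [this]
        rw [add_smul]; abel
      rw [e]; exact this
    have hP1' : ∀ y, y ∈ P1 ↔ re y ∈ Bd := by
      intro y
      rw [hP1, hP, re_add, hBd, Set.mem_ofPred_eq, lin_re]
    obtain ⟨y0, hy0, V, hV, hcard⟩ := hMID d Bd P1 hBdc hP1' ⟨p, hp⟩
    have hsubV : V.card ≤ P1.card := by
      apply Finset.card_le_card_of_injOn (fun v => y0 + v)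
      · intro v hv
        exact Finset.mem_coe.mpr ((hV v).1 (Finset.mem_coe.mp hv)).1
      · intro v _ w _ hvw
        exact add_left_cancel hvw
    have hP1P : (P1 - P1).card ≤ (P - P).card := by
      apply Finset.card_le_card_of_injOn ψ _ hψ.injOn
      intro z hz
      have hz' := Finset.mem_coe.mp hz
      rw [Finset.mem_sub] at hz'
      obtain ⟨a, ha, b, hb, rfl⟩ := hz'
      refine Finset.mem_coe.mpr (Finset.mem_sub.mpr ⟨t + ψ a, (hP1 _).1 ha, t + ψ b,
        (hP1 _).1 hb, ?_⟩)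
      rw [map_sub]; abel
    have hP1le : P1.card ≤ (P1 - P1).card := Finset.card_le_card_sub_right ⟨p, hp⟩
    have hVne : V.Nonempty := ⟨0, (hV 0).2 (by simpa using hy0)⟩
    have hPV : (P1 + V).card ≤ (P1 - P1).card := by
      apply Finset.card_le_card_of_injOn (fun z => z - y0)
      · intro z hz
        have hz' := Finset.mem_coe.mp hz
        rw [Finset.mem_add] at hz'
        obtain ⟨a, ha, v, hv, rfl⟩ := hz'
        refine Finset.mem_coe.mpr (Finset.mem_sub.mpr ⟨a, ha, y0 - v, ((hV v).1 hv).2, ?_⟩)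
        abel
      · intro v _ w _ hvw
        exact sub_left_injective hvw
    have hP1PR : ((P1 - P1).card : ℝ) ≤ N := le_trans (by exact_mod_cast hP1P) hPN
    have hcR : (P1.card : ℝ) ≤ 4 ^ d * V.card := by exact_mod_cast hcard
    have hcov : ((P1 + V).card : ℝ) ≤ (G * 4 ^ d) * V.card := by
      have h1 : ((P1 + V).card : ℝ) ≤ (P1 - P1).card := by exact_mod_cast hPV
      have h2 : G * (P1.card : ℝ) ≤ G * (4 ^ d * V.card) :=
        mul_le_mul_of_nonneg_left hcR (by linarith)
      linarith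
    obtain ⟨F, hF, hFc, hPF⟩ := Finset.ruzsa_covering_add hVne hcov
    refine ⟨{x | re y0 + x ∈ Bd ∧ re y0 - x ∈ Bd}, V, F, ?_, ?_, ?_, hVne, ?_, hFc, ?_⟩
    · intro x hx y hy a b ha hb hab
      refine ⟨?_, ?_⟩
      · have := hBdc hx.1 hy.1 ha hb hab
        have e : re y0 + (a • x + b • y) = a • (re y0 + x) + b • (re y0 + y) := by
          rw [smul_add, smul_add]
          have : re y0 = (a + b) • re y0 := by rw [hab, one_smul]
          conv_lhs => rw [this]
          rw [add_smul]; abel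
        rw [e]; exact this
      · have := hBdc hx.2 hy.2 ha hb hab
        have e : re y0 - (a • x + b • y) = a • (re y0 - x) + b • (re y0 - y) := by
          rw [smul_sub, smul_sub]
          have : re y0 = (a + b) • re y0 := by rw [hab, one_smul]
          conv_lhs => rw [this]
          rw [add_smul]; abel
        rw [e]; exact this
    · rintro x ⟨h1, h2⟩
      refine ⟨?_, ?_⟩
      · rw [← sub_eq_add_neg]; exact h2
      · rw [sub_neg_eq_add]; exact h1
    · intro y
      rw [hV, hP1', hP1', re_add, re_sub]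
      rfl
    · have : (V.card : ℝ) ≤ P1.card := by exact_mod_cast hsubV
      have h2 : (P1.card : ℝ) ≤ (P1 - P1).card := by exact_mod_cast hP1le
      linarith
    · intro a ha b hb
      have ha' := hPF ha
      have hb' := hPF hb
      rw [Finset.mem_add] at ha' hb'
      obtain ⟨x, hx, u, hu, hxa⟩ := ha'
      obtain ⟨x', hx', u', hu', hxb⟩ := hb'
      rw [Finset.mem_sub] at hu hu'
      obtain ⟨v1, hv1, v2, hv2, rfl⟩ := hu
      obtain ⟨v3, hv3, v4, hv4, rfl⟩ := hu'
      set C : Set (Fin d → ℝ) := {x | re y0 + x ∈ Bd ∧ re y0 - x ∈ Bd} with hC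
      have hCc : Convex ℝ C := by
        intro x hx y hy a b ha hb hab
        refine ⟨?_, ?_⟩
        · have := hBdc hx.1 hy.1 ha hb hab
          have e : re y0 + (a • x + b • y) = a • (re y0 + x) + b • (re y0 + y) := by
            rw [smul_add, smul_add]
            have : re y0 = (a + b) • re y0 := by rw [hab, one_smul]
            conv_lhs => rw [this]
            rw [add_smul]; abel
          rw [e]; exact this
        · have := hBdc hx.2 hy.2 ha hb hab
          have e : re y0 - (a • x + b • y) = a • (re y0 - x) + b • (re y0 - y) := by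
            rw [smul_sub, smul_sub]
            have : re y0 = (a + b) • re y0 := by rw [hab, one_smul]
            conv_lhs => rw [this]
            rw [add_smul]; abel
          rw [e]; exact this
      have hCs : ∀ x ∈ C, -x ∈ C := by
        rintro x ⟨h1, h2⟩
        refine ⟨?_, ?_⟩
        · rw [← sub_eq_add_neg]; exact h2
        · rw [sub_neg_eq_add]; exact h1
      have hVC : ∀ y ∈ V, re y ∈ C := by
        intro y hy
        rw [hV, hP1', hP1', re_add, re_sub] at hy
        exact hy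
      have q1 := half_sub hCc hCs (hVC _ hv1) (hVC _ hv2)
      have q2 := half_sub hCc hCs (hVC _ hv3) (hVC _ hv4)
      have q3 := half_sub hCc hCs q1 q2
      refine ⟨x, hx, x', hx', _, q3, ?_⟩
      have e : a - b - x + x' = (v1 - v2) - (v3 - v4) := by
        rw [← hxa, ← hxb]; abel
      rw [e, re_sub, re_sub, re_sub, ← smul_sub, smul_smul, smul_smul]
      norm_num

end H947CV
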