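import Mathlib
import Pool.Agent.H947R2.CV.Stubs
import Pool.Agent.H947R2.CV.Str

set_option autoImplicit false
open Finset
open scoped Pointwise

namespace H947CV

/-- parity vector -/
def par {d : ℕ} (a : Fin d → ℤ) : Fin d → ZMod 2 := fun i => (a i : ZMod 2)

/-- midpoint -/
def mid {d : ℕ} (p : (Fin d → ℤ) × (Fin d → ℤ)) : Fin d → ℤ := fun i => (p.1 i + p.2 i) / 2

theorem two_mid {d : ℕ} (a b : Fin d → ℤ) (h : par a = par b) : mid (a, b) + mid (a, b) = a + b := by
  ext i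
  have h1 : ((a i : ℤ) : ZMod 2) = ((b i : ℤ) : ZMod 2) := congrFun h i
  have h2 : (a i) ≡ (b i) [ZMOD 2] := by
    exact (ZMod.intCast_eq_intCast_iff _ _ _).1 h1
  have h3 : a i % 2 = b i % 2 := h2
  simp only [mid, Pi.add_apply]
  omega

theorem mid2 (d : ℕ) (B : Set (Fin d → ℝ)) (S A1 : Finset (Fin d → ℤ)) (hB : Convex ℝ B)
    (hS : ∀ y, y ∈ S ↔ re y ∈ B) (hA1S : A1 ⊆ S) (hne : A1.Nonempty) :
    ∃ y0 ∈ S, ∃ W : Finset (Fin d → ℤ), W.Nonempty ∧ (∀ v ∈ W, y0 + v ∈ A1 ∧ y0 - v ∈ A1) ∧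
      A1.card ^ 2 ≤ 2 ^ d * (S.card * W.card) := by
  classical
  have hSne : S.Nonempty := hne.mono hA1S
  set D := (A1 ×ˢ A1).filter (fun p => par p.1 = par p.2) with hD
  have hDmem : ∀ p, p ∈ D ↔ (p.1 ∈ A1 ∧ p.2 ∈ A1) ∧ par p.1 = par p.2 := by
    intro p; rw [hD, Finset.mem_filter, Finset.mem_product]
  have hcard1 : A1.card ^ 2 ≤ 2 ^ d * D.card := by
    have h1 : A1.card = ∑ c : Fin d → ZMod 2, (A1.filter (fun a => par a = c)).card :=
      Finset.card_eq_sum_card_fiberwise (fun a _ => Finset.mem_coe.mpr (Finset.mem_univ _))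
    have h2 : D.card = ∑ c : Fin d → ZMod 2, (D.filter (fun p => par p.1 = c)).card :=
      Finset.card_eq_sum_card_fiberwise (fun a _ => Finset.mem_coe.mpr (Finset.mem_univ _))
    have h3 : ∀ c : Fin d → ZMod 2, (D.filter (fun p => par p.1 = c)).card =
        (A1.filter (fun a => par a = c)).card ^ 2 := by
      intro c
      rw [sq, ← Finset.card_product]
      congr 1
      ext p
      rw [Finset.mem_filter, hDmem, Finset.mem_product, Finset.mem_filter, Finset.mem_filter]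
      constructor
      · rintro ⟨⟨⟨h1, h2⟩, h3⟩, h4⟩
        exact ⟨⟨h1, h4⟩, h2, h3 ▸ h4⟩
      · rintro ⟨⟨h1, h4⟩, h2, h5⟩
        exact ⟨⟨⟨h1, h2⟩, h4.trans h5.symm⟩, h4⟩
    have h4 := sq_sum_le_card_mul_sum_sq (s := (Finset.univ : Finset (Fin d → ZMod 2)))
      (f := fun c => (A1.filter (fun a => par a = c)).card)
    rw [← h1] at h4
    have h5 : (Finset.univ : Finset (Fin d → ZMod 2)).card = 2 ^ d := by
      rw [Finset.card_univ, Fintype.card_fun, ZMod.card, Fintype.card_fin]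
    rw [h5] at h4
    rw [h2]
    refine h4.trans (Nat.mul_le_mul_left _ (le_of_eq ?_))
    exact Finset.sum_congr rfl fun c _ => (h3 c).symm
  have hmaps : ∀ p ∈ D, mid p ∈ S := by
    intro p hp
    obtain ⟨⟨h1, h2⟩, h3⟩ := (hDmem p).1 hp
    rw [hS]
    have h4 := two_mid p.1 p.2 h3
    have h5 := half_add hB ((hS _).1 (hA1S h1)) ((hS _).1 (hA1S h2))
    rw [← re_add, ← h4, re_add, ← two_smul ℝ, smul_smul] at h5
    norm_num at h5
    exact h5
  obtain ⟨y0, hy0, hmax⟩ := Finset.exists_max_image S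
    (fun y => (D.filter (fun p => mid p = y)).card) hSne
  have hcard2 : D.card ≤ (D.filter (fun p => mid p = y0)).card * S.card :=
    Finset.card_le_mul_card_image_of_maps_to hmaps _ hmax
  set Fb := D.filter (fun p => mid p = y0) with hFb
  have hFbmem : ∀ p ∈ Fb, (p.1 ∈ A1 ∧ p.2 ∈ A1) ∧ y0 + y0 = p.1 + p.2 := by
    intro p hp
    rw [hFb, Finset.mem_filter, hDmem] at hp
    refine ⟨hp.1.1, ?_⟩
    rw [← hp.2]
    exact two_mid p.1 p.2 hp.1.2
  set W := Fb.image (fun p => p.1 - y0) with hW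
  have hWc : W.card = Fb.card := by
    rw [hW]
    apply Finset.card_image_of_injOn
    intro p hp q hq hpq
    have h1 := (hFbmem p (Finset.mem_coe.mp hp)).2
    have h2 := (hFbmem q (Finset.mem_coe.mp hq)).2
    have h3 : p.1 = q.1 := sub_left_injective hpq
    have h4 : p.2 = q.2 := by
      rw [h1, h3] at h2
      exact add_left_cancel h2
    exact Prod.ext h3 h4
  have hA1pos : 0 < A1.card := hne.card_pos
  have hfin : A1.card ^ 2 ≤ 2 ^ d * (S.card * W.card) := by
    rw [hWc]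
    refine hcard1.trans (Nat.mul_le_mul_left _ ?_)
    rw [mul_comm]; exact hcard2
  refine ⟨y0, hy0, W, ?_, ?_, hfin⟩
  · rw [Finset.nonempty_iff_ne_empty]
    intro h
    rw [h, Finset.card_empty, mul_zero, mul_zero] at hfin
    have : 0 < A1.card ^ 2 := by positivity
    omega
  · intro v hv
    rw [hW, Finset.mem_image] at hv
    obtain ⟨p, hp, rfl⟩ := hv
    obtain ⟨⟨h1, h2⟩, h3⟩ := hFbmem p hp
    refine ⟨by simpa using h1, ?_⟩
    have : y0 - (p.1 - y0) = p.2 := by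
      have : y0 - (p.1 - y0) = (y0 + y0) - p.1 := by abel
      rw [this, h3]; abel
    rw [this]; exact h2

end H947CV
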