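import Mathlib
import Pool.Agent.H947R2.CV.Stubs
import Pool.Agent.H947R2.CV.Stubs2
import Pool.Agent.H947R2.CV.Str
import Pool.Agent.H947R2.CV.Mid2

set_option autoImplicit false
open Finset
open scoped Pointwise

namespace H947CV

theorem pow_d_bound (d : ℕ) (G : ℝ) (hG : 1 ≤ G) (hd : (d : ℝ) ≤ 480 * Real.log G + 1) :
    (144 : ℝ) ^ d ≤ 144 * G ^ 2391 := by
  have hG0 : 0 < G := by linarith
  have hlog : 0 ≤ Real.log G := Real.log_nonneg hG
  have h7 : Real.log 144 ≤ 498 / 100 := by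
    rw [Real.log_le_iff_le_exp (by norm_num)]
    have h1 : Real.exp (498 / 100) = Real.exp 1 ^ 5 * Real.exp (-(2 / 100)) := by
      rw [← Real.exp_nat_mul, ← Real.exp_add]; norm_num
    have h2 : (98 / 100 : ℝ) ≤ Real.exp (-(2 / 100)) := by
      have := Real.add_one_le_exp (-(2 / 100) : ℝ); linarith
    have h3 : (27182 / 10000 : ℝ) ^ 5 ≤ Real.exp 1 ^ 5 := by
      apply pow_le_pow_left₀ (by norm_num)
      have := Real.exp_one_gt_d9
      linarith
    rw [h1]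
    calc (144 : ℝ) ≤ (27182 / 10000 : ℝ) ^ 5 * (98 / 100) := by norm_num
      _ ≤ Real.exp 1 ^ 5 * Real.exp (-(2 / 100)) := by
        apply mul_le_mul h3 h2 (by norm_num) (by positivity)
  have hlog144 : 0 ≤ Real.log 144 := Real.log_nonneg (by norm_num)
  have e1 : (144 : ℝ) ^ d = Real.exp (d * Real.log 144) := by
    rw [Real.exp_nat_mul, Real.exp_log (by norm_num)]
  have e2 : (144 : ℝ) * G ^ 2391 = Real.exp (Real.log 144 + 2391 * Real.log G) := by
    rw [Real.exp_add, Real.exp_log (by norm_num)]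
    congr 1
    have := Real.exp_nat_mul (Real.log G) 2391
    rw [Real.exp_log hG0] at this
    rw [← this]; norm_num
  rw [e1, e2]
  apply Real.exp_le_exp.mpr
  have h8 : (d : ℝ) * Real.log 144 ≤ (480 * Real.log G + 1) * Real.log 144 :=
    mul_le_mul_of_nonneg_right hd hlog144
  have h9 : Real.log G * Real.log 144 ≤ Real.log G * (498 / 100) :=
    mul_le_mul_of_nonneg_left h7 hlog
  nlinarith

theorem num1 (G L a s : ℝ) (hL : 0 ≤ L) (hLG : L ≤ G) (hs : 0 ≤ s)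
    (h : a ≤ L * (G ^ 185 * s)) : L * a ≤ G ^ 187 * s := by
  have hG : 0 ≤ G := hL.trans hLG
  obtain ⟨q, hq⟩ : ∃ q : ℝ, q = G ^ 185 := ⟨_, rfl⟩
  have hq0 : 0 ≤ q := by rw [hq]; positivity
  have e : G ^ 187 = q * (G * G) := by
    rw [hq, show (187 : ℕ) = 185 + 1 + 1 from rfl, pow_succ, pow_succ, mul_assoc]
  rw [e]
  rw [← hq] at h
  have h1 : L * a ≤ L * (L * (q * s)) := mul_le_mul_of_nonneg_left h hL
  have h2 : L * L ≤ G * G := mul_le_mul hLG hLG hL hG
  have h3 : (L * L) * (q * s) ≤ (G * G) * (q * s) :=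
    mul_le_mul_of_nonneg_right h2 (by positivity)
  nlinarith

theorem num2 (K L G a s : ℝ) (hG : G = K * L) (hK : 0 ≤ K)
    (h : a ≤ L * (G ^ 185 * s)) : K * a ≤ G ^ 186 * s := by
  obtain ⟨q, hq⟩ : ∃ q : ℝ, q = G ^ 185 := ⟨_, rfl⟩
  have e : G ^ 186 = q * G := by rw [hq, show (186 : ℕ) = 185 + 1 from rfl, pow_succ]
  rw [e]
  rw [← hq] at h
  have h1 : K * a ≤ K * (L * (q * s)) := mul_le_mul_of_nonneg_left h hK
  have h2 : K * (L * (q * s)) = q * G * s := by rw [hG]; ring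
  linarith

theorem num3 (d : ℕ) (G L x y : ℝ) (hG : 1 ≤ G) (hL : 0 ≤ L) (hLG : L ≤ G)
    (hx : x ≤ G ^ 373 * 2 ^ d) (hy : y ≤ 72 ^ d * L) (hy0 : 0 ≤ y)
    (hd : (144 : ℝ) ^ d ≤ 144 * G ^ 2391) : x * y ≤ 144 * G ^ 2800 := by
  have hG0 : 0 ≤ G := by linarith
  obtain ⟨p, hp⟩ : ∃ p : ℝ, p = G ^ 373 := ⟨_, rfl⟩
  obtain ⟨r, hr⟩ : ∃ r : ℝ, r = G ^ 2391 := ⟨_, rfl⟩
  have hp0 : 0 ≤ p := by rw [hp]; positivity
  have hr0 : 0 ≤ r := by rw [hr]; positivity
  rw [← hp] at hx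
  rw [← hr] at hd
  have h2 : x * y ≤ (p * 2 ^ d) * (72 ^ d * L) :=
    mul_le_mul hx hy hy0 (by positivity)
  have h4 : (2 : ℝ) ^ d * 72 ^ d = 144 ^ d := by
    rw [← mul_pow]; norm_num
  have h3 : (p * 2 ^ d) * (72 ^ d * L) = p * L * ((2 : ℝ) ^ d * 72 ^ d) := by ring
  rw [h4] at h3
  have h5 : p * L * (144 : ℝ) ^ d ≤ p * G * (144 * r) := by
    gcongr
  have h6 : p * G * r = G ^ 2765 := by
    rw [hp, hr, ← pow_succ, ← pow_add]
  have h7 : G ^ 2765 ≤ G ^ 2800 := pow_le_pow_right₀ hG (by norm_num)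
  nlinarith

theorem num4 (d : ℕ) (G K A A1 P1 W : ℝ) (hG : 1 ≤ G) (hA1 : 0 < A1) (hW : 0 ≤ W)
    (hKA : K * A ≤ G ^ 186 * A1) (hP1 : P1 ≤ G ^ 187 * A1)
    (hsq : A1 ^ 2 ≤ 2 ^ d * (P1 * W)) : K * A ≤ (G ^ 373 * 2 ^ d) * W := by
  obtain ⟨p, hp⟩ : ∃ p : ℝ, p = G ^ 186 := ⟨_, rfl⟩
  obtain ⟨q, hq⟩ : ∃ q : ℝ, q = G ^ 187 := ⟨_, rfl⟩
  have hp0 : 0 ≤ p := by rw [hp]; positivity
  have hq0 : 0 ≤ q := by rw [hq]; positivity
  have e : G ^ 373 = p * q := by rw [hp, hq, ← pow_add]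
  rw [e]
  rw [← hp] at hKA
  rw [← hq] at hP1
  have h1 : (2 : ℝ) ^ d * (P1 * W) ≤ 2 ^ d * ((q * A1) * W) := by
    gcongr
  have h2 : A1 * A1 ≤ (q * 2 ^ d * W) * A1 := by nlinarith
  have h3 : A1 ≤ q * 2 ^ d * W := le_of_mul_le_mul_right h2 hA1
  have h4 : p * A1 ≤ p * (q * 2 ^ d * W) := mul_le_mul_of_nonneg_left h3 hp0
  calc K * A ≤ p * A1 := hKA
    _ ≤ p * (q * 2 ^ d * W) := h4
    _ = p * q * 2 ^ d * W := by ring

set_option maxHeartbeats 4000000 in
theorem final (hRANK : St_RANK) (hSHR : St_SHR) (hBODY : St_BODY)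
    {Γ : Type*} [AddCommGroup Γ] [DecidableEq Γ] (K L : ℝ) (A : Finset Γ) (hA : A.Nonempty)
    (hK : ((A + A).card : ℝ) ≤ K * (A.card : ℝ))
    (n : ℕ) (B : Set (Fin n → ℝ)) (hB : Convex ℝ B) (P : Finset (Fin n → ℤ))
    (hP : ∀ x : Fin n → ℤ, x ∈ P ↔ (fun i => (x i : ℝ)) ∈ B)
    (φ : (Fin n → ℤ) →+ Γ) (hφ : Set.InjOn φ ((P + P : Finset (Fin n → ℤ)) : Set (Fin n → ℤ)))
    (x₀ : Γ) (hdense : (A.card : ℝ) ≤ L * ((A ∩ P.image (fun x => x₀ + φ x)).card : ℝ))
    (hsize : (P.card : ℝ) ≤ L * A.card) :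
    ∃ (d : ℕ) (B' : Set (Fin d → ℝ)) (ψ : (Fin d → ℤ) →+ Γ) (T : Finset Γ),
      (d : ℝ) ≤ 480 * Real.log (K * L) + 1 ∧
      Convex ℝ B' ∧ IsCompact B' ∧ (interior B').Nonempty ∧ (∀ x ∈ B', -x ∈ B') ∧
      {x : Fin d → ℤ | (fun i => (x i : ℝ)) ∈ B'}.Finite ∧
      {x : Fin d → ℤ | (fun i => (x i : ℝ)) ∈ B'}.ncard ≤ A.card ∧
      (T.card : ℝ) ≤ 144 * (K * L) ^ 2800 ∧
      ∀ a ∈ A, ∃ t ∈ T, ∃ x : Fin d → ℤ, (fun i => (x i : ℝ)) ∈ B' ∧ a = t + ψ x := by
  classical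
  have hAc : (0 : ℝ) < A.card := by exact_mod_cast hA.card_pos
  have hA1 : (1 : ℝ) ≤ A.card := by exact_mod_cast hA.card_pos
  -- K, L ≥ 1
  have hK1 : 1 ≤ K := by
    have h1 : (A.card : ℝ) ≤ (A + A).card := by
      exact_mod_cast Finset.card_le_card_add_right hA
    by_contra hc
    push Not at hc
    nlinarith
  have hIA : ((A ∩ P.image (fun x => x₀ + φ x)).card : ℝ) ≤ A.card := by
    exact_mod_cast Finset.card_le_card Finset.inter_subset_left
  have hIpos : (0 : ℝ) ≤ ((A ∩ P.image (fun x => x₀ + φ x)).card : ℝ) := by positivity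
  have hL1 : 1 ≤ L := by
    by_contra hc
    push Not at hc
    rcases le_or_gt L 0 with h0 | h0
    · nlinarith
    · nlinarith
  set A' : Finset (Fin n → ℤ) := P.filter (fun x => x₀ + φ x ∈ A) with hA'
  have hmemA' : ∀ x, x ∈ A' ↔ x ∈ P ∧ x₀ + φ x ∈ A := by
    intro x; rw [hA', Finset.mem_filter]
  have hIA' : (A ∩ P.image (fun x => x₀ + φ x)).card ≤ A'.card := by
    refine le_trans (Finset.card_le_card ?_) (Finset.card_image_le (f := fun x => x₀ + φ x))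
    intro a ha
    rw [Finset.mem_inter, Finset.mem_image] at ha
    obtain ⟨haA, x, hx, rfl⟩ := ha
    exact Finset.mem_image.mpr ⟨x, (hmemA' x).2 ⟨hx, haA⟩, rfl⟩
  have hAA' : (A.card : ℝ) ≤ L * A'.card := by
    refine hdense.trans (mul_le_mul_of_nonneg_left ?_ (by linarith))
    exact_mod_cast hIA'
  have hA'ne : A'.Nonempty := by
    rw [Finset.nonempty_iff_ne_empty]
    intro h
    rw [h, Finset.card_empty] at hAA'
    norm_num at hAA'
    rw [hAA'] at hA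
    exact Finset.not_nonempty_empty hA
  obtain ⟨p0, hp0'⟩ := hA'ne
  have hp0 : p0 ∈ P := ((hmemA' _).1 hp0').1
  -- φ is injective on P
  have hφP : ∀ x ∈ P, ∀ y ∈ P, φ x = φ y → x = y := by
    intro x hx y hy hxy
    have h1 : φ (p0 + x) = φ (p0 + y) := by rw [map_add, map_add, hxy]
    exact add_left_cancel (hφ (Finset.mem_coe.mpr (Finset.add_mem_add hp0 hx))
      (Finset.mem_coe.mpr (Finset.add_mem_add hp0 hy)) h1)
  have hsum : (A' + A').card ≤ (A + A).card := by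
    apply Finset.card_le_card_of_injOn (fun z => x₀ + x₀ + φ z)
    · intro z hz
      have hz' := Finset.mem_coe.mp hz
      rw [Finset.mem_add] at hz'
      obtain ⟨a, ha, b, hb, rfl⟩ := hz'
      refine Finset.mem_coe.mpr (Finset.mem_add.mpr ⟨_, ((hmemA' a).1 ha).2, _,
        ((hmemA' b).1 hb).2, ?_⟩)
      dsimp only
      rw [map_add]; abel
    · intro z hz w hw hzw
      have hz' := Finset.mem_coe.mp hz
      have hw' := Finset.mem_coe.mp hw
      rw [Finset.mem_add] at hz' hw'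
      obtain ⟨a, ha, b, hb, rfl⟩ := hz'
      obtain ⟨c, hc, e, he, rfl⟩ := hw'
      exact hφ (Finset.mem_coe.mpr (Finset.add_mem_add ((hmemA' a).1 ha).1 ((hmemA' b).1 hb).1))
        (Finset.mem_coe.mpr (Finset.add_mem_add ((hmemA' c).1 hc).1 ((hmemA' e).1 he).1))
        (add_left_cancel hzw)
  have hKA' : ((A' + A').card : ℝ) ≤ (K * L) * A'.card := by
    have h1 : ((A' + A').card : ℝ) ≤ (A + A).card := by exact_mod_cast hsum
    have h2 : K * (A.card : ℝ) ≤ K * (L * A'.card) :=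
      mul_le_mul_of_nonneg_left hAA' (by linarith)
    linarith
  obtain ⟨d, ψ, t, A1, hd, hψ, hA1mem, hA1c⟩ := hRANK n A' (K * L) ⟨p0, hp0'⟩ hKA'
  obtain ⟨G, hGdef⟩ : ∃ G : ℝ, G = K * L := ⟨_, rfl⟩
  rw [← hGdef] at hd hA1c hKA'
  have hG1 : 1 ≤ G := by rw [hGdef]; nlinarith
  have hLG : L ≤ G := by rw [hGdef]; nlinarith
  have hKG : K ≤ G := by rw [hGdef]; nlinarith
  have hA1ne : A1.Nonempty := by
    rw [Finset.nonempty_iff_ne_empty]
    intro h
    rw [h, Finset.card_empty] at hA1c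
    have h2 : (0 : ℝ) < A'.card := by exact_mod_cast Finset.card_pos.mpr ⟨p0, hp0'⟩
    norm_num at hA1c
    rw [hA1c] at h2
    simp at h2
  obtain ⟨y1, hy1⟩ := hA1ne
  -- the full trace of P
  have hinjt : Function.Injective (fun y => t + ψ y) := fun y z h => hψ (add_left_cancel h)
  set P1 : Finset (Fin d → ℤ) := P.preimage (fun y => t + ψ y) hinjt.injOn with hP1def
  have hP1 : ∀ y, y ∈ P1 ↔ t + ψ y ∈ P := by
    intro y; rw [hP1def, Finset.mem_preimage]
  have hA1P1 : A1 ⊆ P1 := by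
    intro y hy
    rw [hP1]
    exact ((hmemA' _).1 ((hA1mem y).1 hy)).1
  have hA1P1c : (A1.card : ℝ) ≤ P1.card := by exact_mod_cast Finset.card_le_card hA1P1
  have hG185 : (1 : ℝ) ≤ G ^ 185 := one_le_pow₀ hG1
  -- |A| ≤ L G^185 |A1|
  have hAA1 : (A.card : ℝ) ≤ L * (G ^ 185 * A1.card) :=
    hAA'.trans (mul_le_mul_of_nonneg_left hA1c (by linarith))
  -- the midpoint
  set Bd : Set (Fin d → ℝ) := {x | re t + lin ψ x ∈ B} with hBd
  have hBdc : Convex ℝ Bd := by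
    intro x hx y hy a b ha hb hab
    have := hB hx hy ha hb hab
    rw [hBd, Set.mem_ofPred_eq]
    have e : re t + lin ψ (a • x + b • y) =
        a • (re t + lin ψ x) + b • (re t + lin ψ y) := by
      rw [map_add, map_smul, map_smul, smul_add, smul_add]
      have : re t = (a + b) • re t := by rw [hab, one_smul]
      conv_lhs => rw [this]
      rw [add_smul]; abel
    rw [e]; exact this
  have hP1' : ∀ y, y ∈ P1 ↔ re y ∈ Bd := by
    intro y
    rw [hP1, hP, hBd, Set.mem_ofPred_eq, lin_re, ← re_add]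
    rfl
  obtain ⟨y0, hy0, W, hWne, hW, hWcard⟩ := mid2 d Bd P1 A1 hBdc hP1' hA1P1 ⟨y1, hy1⟩
  set C : Set (Fin d → ℝ) := {x | re y0 + x ∈ Bd ∧ re y0 - x ∈ Bd} with hC
  have hCc : Convex ℝ C := by
    intro x hx y hy a b ha hb hab
    refine ⟨?_, ?_⟩
    · have := hBdc hx.1 hy.1 ha hb hab
      have e : re y0 + (a • x + b • y) = a • (re y0 + x) + b • (re y0 + y) := by
        rw [smul_add, smul_add]
        have : re y0 = (a + b) • re y0 := by rw [hab, one_smul]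
        conv_lhs => rw [this]
        rw [add_smul]; abel
      rw [e]; exact this
    · have := hBdc hx.2 hy.2 ha hb hab
      have e : re y0 - (a • x + b • y) = a • (re y0 - x) + b • (re y0 - y) := by
        rw [smul_sub, smul_sub]
        have : re y0 = (a + b) • re y0 := by rw [hab, one_smul]
        conv_lhs => rw [this]
        rw [add_smul]; abel
      rw [e]; exact this
  have hCs : ∀ x ∈ C, -x ∈ C := by
    rintro x ⟨h1, h2⟩
    refine ⟨?_, ?_⟩
    · rw [← sub_eq_add_neg]; exact h2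
    · rw [sub_neg_eq_add]; exact h1
  have hinj0 : Function.Injective (fun v : Fin d → ℤ => y0 + v) :=
    fun v w h => add_left_cancel h
  set V : Finset (Fin d → ℤ) :=
    (P1.preimage (fun v => y0 + v) hinj0.injOn).filter (fun v => y0 - v ∈ P1) with hVdef
  have hVmem : ∀ v, v ∈ V ↔ y0 + v ∈ P1 ∧ y0 - v ∈ P1 := by
    intro v; rw [hVdef, Finset.mem_filter, Finset.mem_preimage]
  have hVC : ∀ y, y ∈ V ↔ re y ∈ C := by
    intro y
    rw [hVmem, hP1', hP1', re_add, re_sub]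
    rfl
  have hWV : W ⊆ V := by
    intro v hv
    rw [hVmem]
    exact ⟨hA1P1 (hW v hv).1, hA1P1 (hW v hv).2⟩
  have hVne : V.Nonempty := hWne.mono hWV
  have hVP1 : V.card ≤ P1.card := by
    apply Finset.card_le_card_of_injOn (fun v => y0 + v)
    · intro v hv
      exact Finset.mem_coe.mpr ((hVmem v).1 (Finset.mem_coe.mp hv)).1
    · intro v _ w _ hvw
      exact add_left_cancel hvw
  have hP1P : P1.card ≤ P.card := by
    apply Finset.card_le_card_of_injOn (fun y => t + ψ y)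
    · intro v hv
      exact Finset.mem_coe.mpr ((hP1 v).1 (Finset.mem_coe.mp hv))
    · intro v _ w _ hvw
      exact hinjt hvw
  have hP1N : (P1.card : ℝ) ≤ L * A.card := le_trans (by exact_mod_cast hP1P) hsize
  have hVN : (V.card : ℝ) ≤ L * A.card := le_trans (by exact_mod_cast hVP1) hP1N
  obtain ⟨C', V', Y, hC'c, hC's, hV'C', hV'ne, hV'N, hYc, hYcov⟩ :=
    hSHR d C V A.card hCc hCs hVC hVne hA.card_pos
  obtain ⟨B', hB'c, hB'k, hB'i, hB's, hB'V⟩ := hBODY d C' V' hC'c hC's hV'C' hV'ne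
  -- covering of A by translates of W - W
  set Q : Finset Γ := W.image (fun y => φ (ψ y)) with hQ
  have hQc : Q.card = W.card := by
    rw [hQ]
    apply Finset.card_image_of_injOn
    intro y hy z hz hyz
    have hy' := ((hmemA' _).1 ((hA1mem _).1 (hW y (Finset.mem_coe.mp hy)).1)).1
    have hz' := ((hmemA' _).1 ((hA1mem _).1 (hW z (Finset.mem_coe.mp hz)).1)).1
    dsimp only at hyz
    have h1 : φ (t + ψ (y0 + y)) = φ (t + ψ (y0 + z)) := by
      simp only [map_add]; rw [hyz]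
    exact add_left_cancel (hinjt (hφP _ hy' _ hz' h1))
  have hQne : Q.Nonempty := by
    rw [← Finset.card_pos, hQc]; exact hWne.card_pos
  have hAQ : (A + Q).card ≤ (A + A).card := by
    apply Finset.card_le_card_of_injOn (fun z => z + (x₀ + φ t + φ (ψ y0)))
    · intro z hz
      have hz' := Finset.mem_coe.mp hz
      rw [Finset.mem_add] at hz'
      obtain ⟨a, ha, b, hb, rfl⟩ := hz'
      rw [hQ, Finset.mem_image] at hb
      obtain ⟨y, hy, rfl⟩ := hb
      refine Finset.mem_coe.mpr (Finset.mem_add.mpr ⟨a, ha, x₀ + φ (t + ψ (y0 + y)),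
        ((hmemA' _).1 ((hA1mem _).1 (hW y hy).1)).2, ?_⟩)
      dsimp only
      simp only [map_add]; abel
    · intro v _ w _ hvw
      exact add_right_cancel hvw
  have hAQ2 : ((A + Q).card : ℝ) ≤ (G ^ 373 * 2 ^ d) * Q.card := by
    have h1 : ((A + Q).card : ℝ) ≤ (A + A).card := by exact_mod_cast hAQ
    have h3 := num2 K L G A.card A1.card hGdef (by linarith) hAA1
    have h4 : (P1.card : ℝ) ≤ G ^ 187 * A1.card :=
      hP1N.trans (num1 G L A.card A1.card (by linarith) hLG (by positivity) hAA1)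
    have h5 : (A1.card : ℝ) ^ 2 ≤ 2 ^ d * (P1.card * W.card) := by exact_mod_cast hWcard
    have h6 := num4 d G K A.card A1.card P1.card W.card hG1
      (by exact_mod_cast Finset.card_pos.mpr ⟨y1, hy1⟩) (by positivity) h3 h4 h5
    rw [hQc]
    linarith
  obtain ⟨X, hXA, hXc, hXcov⟩ := Finset.ruzsa_covering_add hQne hAQ2
  -- number of translates in Y
  have hYR : (Y.card : ℝ) ≤ 72 ^ d * L := by
    have h1 : (Y.card : ℝ) * A.card ≤ 72 ^ d * max (V.card : ℝ) A.card := by exact_mod_cast hYc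
    have h2 : max (V.card : ℝ) A.card ≤ L * A.card := by
      apply max_le hVN
      nlinarith
    have h3 : (72 : ℝ) ^ d * max (V.card : ℝ) A.card ≤ 72 ^ d * (L * A.card) :=
      mul_le_mul_of_nonneg_left h2 (by positivity)
    have h4 : (Y.card : ℝ) * A.card ≤ (72 ^ d * L) * A.card := by linarith
    exact le_of_mul_le_mul_right h4 hAc
  have hset : {x : Fin d → ℤ | (fun i => (x i : ℝ)) ∈ B'} = (V' : Set (Fin d → ℤ)) := by
    ext x
    rw [Set.mem_ofPred_eq, Finset.mem_coe]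
    exact hB'V x
  refine ⟨d, B', φ.comp ψ, (X ×ˢ Y).image (fun q => q.1 + φ (ψ q.2)),
    hGdef ▸ hd, hB'c, hB'k, hB'i, hB's, ?_, ?_, ?_, ?_⟩
  · rw [hset]; exact Finset.finite_toSet V'
  · rw [hset, Set.ncard_coe_finset]; exact hV'N
  · have h1 : (((X ×ˢ Y).image (fun q => q.1 + φ (ψ q.2))).card : ℝ) ≤ X.card * Y.card := by
      have := Finset.card_image_le (s := X ×ˢ Y) (f := fun q => q.1 + φ (ψ q.2))
      rw [Finset.card_product] at this
      exact_mod_cast this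
    refine h1.trans ?_
    rw [← hGdef]
    exact num3 d G L X.card Y.card hG1 (by linarith) hLG hXc hYR (by positivity)
      (pow_d_bound d G hG1 hd)
  · intro a ha
    have ha' := hXcov ha
    rw [Finset.mem_add] at ha'
    obtain ⟨x, hx, u, hu, hxa⟩ := ha'
    rw [Finset.mem_sub] at hu
    obtain ⟨u1, hu1, u2, hu2, hu12⟩ := hu
    rw [hQ, Finset.mem_image] at hu1 hu2
    obtain ⟨a1, ha1, rfl⟩ := hu1
    obtain ⟨a2, ha2, rfl⟩ := hu2
    have hq := half_sub hCc hCs ((hVC _).1 (hWV ha1)) ((hVC _).1 (hWV ha2))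
    have h0 : (0 : Fin d → ℝ) ∈ C := zero_mem_of_symm hCc hCs ⟨_, hq⟩
    have hq2 := half_add hCc hq h0
    rw [add_zero, smul_smul] at hq2
    obtain ⟨y, hy, hyv⟩ := hYcov (a1 - a2) ⟨_, hq2, by
      rw [re_sub, smul_smul]; norm_num⟩
    refine ⟨x + φ (ψ y), ?_, a1 - a2 - y, (hB'V _).2 hyv, ?_⟩
    · exact Finset.mem_image.mpr ⟨(x, y), Finset.mem_product.mpr ⟨hx, hy⟩, rfl⟩
    · rw [AddMonoidHom.comp_apply, ← hxa, ← hu12, add_assoc, ← map_add, ← map_add, ← map_sub,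
        ← map_sub]
      congr 3
      abel

end H947CV
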